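import Mathlib
import Pool.Agent.H286R2.UC.Defs
import Pool.Agent.H286R2.UC.U1
import Pool.Agent.H286R2.UC.Stubs

set_option autoImplicit false

/-!
# Task U5: entropy lower bound for the coupling with shared trace on `T`
-/

namespace Pool.Agent.H286R2.UC

open Real Finset Pool.Agent.H117R2 Pool.Agent.H117R2.UC

variable {α : Type*} [DecidableEq α]

namespace U5aux

theorem chainSum_congr {f g : Finset α → α → ℝ} (h : ∀ S j, f S j = g S j) (S : Finset α)
    (l : List α) : chainSum f S l = chainSum g S l := by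
  induction l generalizing S with
  | nil => rfl
  | cons j l ih => simp only [chainSum]; rw [h, ih]

theorem chainSum_union (f : Finset α → α → ℝ) (T S : Finset α) (l : List α) :
    chainSum (fun S j => f (T ∪ S) j) S l = chainSum f (T ∪ S) l := by
  induction l generalizing S with
  | nil => rfl
  | cons j l ih => simp only [chainSum]; rw [ih, Finset.union_insert]

theorem chainSum_add (f g : Finset α → α → ℝ) (S : Finset α) (l : List α) :
    chainSum (fun S j => f S j + g S j) S l = chainSum f S l + chainSum g S l := by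
  induction l generalizing S with
  | nil => simp [chainSum]
  | cons j l ih => simp only [chainSum]; rw [ih]; ring

theorem chainSum_sum {ι : Type*} (s : Finset ι) (f : ι → Finset α → α → ℝ) (S : Finset α)
    (l : List α) :
    chainSum (fun S j => ∑ i ∈ s, f i S j) S l = ∑ i ∈ s, chainSum (f i) S l := by
  induction l generalizing S with
  | nil => simp [chainSum]
  | cons j l ih => simp only [chainSum]; rw [ih, Finset.sum_add_distrib]

theorem chainSum_mul (c : ℝ) (f : Finset α → α → ℝ) (S : Finset α) (l : List α) :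
    chainSum (fun S j => c * f S j) S l = c * chainSum f S l := by
  induction l generalizing S with
  | nil => simp [chainSum]
  | cons j l ih => simp only [chainSum]; rw [ih]; ring

theorem conv_eq_sum (C : Finset (Finset α)) (Y : Finset α) :
    conv C C Y = ∑ A ∈ C, ((C.filter (fun B => A ∪ B = Y)).card : ℝ) := by
  unfold conv
  rw [Finset.card_filter, Finset.sum_product]
  push_cast
  refine Finset.sum_congr rfl fun A _ => ?_
  rw [Finset.card_filter]
  push_cast
  rfl

theorem mem_cl {F : Finset (Finset α)} {T A B : Finset α} :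
    B ∈ cl F T A ↔ B ∈ F ∧ B ∩ T = A ∩ T := by
  unfold cl
  rw [Finset.mem_filter]

/-- distribution of the union in terms of the class -/
theorem PT_eq {F : Finset (Finset α)} {T Y : Finset α} (_hY : Y ∈ F) :
    PT F T Y = conv (cl F T Y) (cl F T Y) Y / ((F.card : ℝ) * ((cl F T Y).card : ℝ)) := by
  unfold PT
  have h1 : ∑ A ∈ F, (((cl F T A).filter (fun B => A ∪ B = Y)).card : ℝ) /
      ((cl F T A).card : ℝ) =
      ∑ A ∈ cl F T Y, (((cl F T Y).filter (fun B => A ∪ B = Y)).card : ℝ) /
      ((cl F T Y).card : ℝ) := by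
    have hsub : cl F T Y ⊆ F := Finset.filter_subset _ _
    rw [← Finset.sum_subset hsub]
    · refine Finset.sum_congr rfl fun A hA => ?_
      rw [cl_eq hA]
    · intro A hA hA'
      have : (cl F T A).filter (fun B => A ∪ B = Y) = ∅ := by
        rw [Finset.filter_eq_empty_iff]
        intro B hB hAB
        apply hA'
        rw [mem_cl] at hB ⊢
        refine ⟨hA, ?_⟩
        rw [← hAB, Finset.union_inter_distrib_right, hB.2, Finset.union_self]
      rw [this]
      simp
  rw [h1, ← Finset.sum_div, ← conv_eq_sum, div_div]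
  congr 1
  ring

theorem cl_union {F : Finset (Finset α)} (hF : UCl F) {T A : Finset α} :
    ∀ X ∈ cl F T A, ∀ Y ∈ cl F T A, X ∪ Y ∈ cl F T A := by
  intro X hX Y hY
  rw [mem_cl] at hX hY ⊢
  refine ⟨hF X hX.1 Y hY.1, ?_⟩
  rw [Finset.union_inter_distrib_right, hX.2, hY.2, Finset.union_self]

theorem negMulLog_div {c K : ℝ} (hc : 0 ≤ c) (hK : 0 < K) :
    negMulLog (c / K) = (negMulLog c + c * log K) / K := by
  rcases hc.eq_or_lt with rfl | hc
  · simp
  · unfold negMulLog
    rw [log_div hc.ne' hK.ne']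
    field_simp
    ring

theorem sum_negMulLog (C : Finset (Finset α)) (hC : ∀ X ∈ C, ∀ Y ∈ C, X ∪ Y ∈ C)
    {N : ℝ} (hN : 0 < N) (hne : 0 < (C.card : ℝ)) :
    (∑ Y ∈ C, negMulLog (conv C C Y / (N * (C.card : ℝ)))) / (C.card : ℝ) =
      (ent C (conv C C) / (C.card : ℝ) ^ 2 + log N - log (C.card : ℝ)) / N := by
  have hK : 0 < N * (C.card : ℝ) := by positivity
  have h1 : ∑ Y ∈ C, negMulLog (conv C C Y / (N * (C.card : ℝ))) =
      (∑ Y ∈ C, negMulLog (conv C C Y) + (∑ Y ∈ C, conv C C Y) * log (N * (C.card : ℝ))) /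
        (N * (C.card : ℝ)) := by
    rw [Finset.sum_mul, ← Finset.sum_add_distrib, Finset.sum_div]
    exact Finset.sum_congr rfl fun Y _ => negMulLog_div (conv_nonneg _ _ _) hK
  rw [h1]
  have h2 : ∑ Y ∈ C, negMulLog (conv C C Y) =
      ent C (conv C C) + negMulLog ((C.card : ℝ) * (C.card : ℝ)) := by
    unfold ent
    rw [sum_conv C C C hC]
    ring
  rw [h2, sum_conv C C C hC, negMulLog_mul, log_mul hN.ne' hne.ne']
  unfold negMulLog
  field_simp
  ring

theorem gain_eq {F : Finset (Finset α)} {T A : Finset α} (hA : A ∈ F) (S : Finset α) (j : α) :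
    2 * (M0 (cl F T A) j : ℝ) * Sg hb (cl F T A) S j - (Sg nu (cl F T A) S j) ^ 2 =
      ((cl F T A).card : ℝ) ^ 2 *
        (2 * xv F T j A * avT hb F T (T ∪ S) j A - (avT nu F T (T ∪ S) j A) ^ 2) := by
  have hpos : (0 : ℝ) < ((cl F T A).card : ℝ) := by exact_mod_cast cl_card_pos hA
  have hS : ∀ g : ℝ → ℝ, Sg g (cl F T A) S j =
      ((cl F T A).card : ℝ) * avT g F T (T ∪ S) j A := by
    intro g
    unfold Sg avT
    rw [mul_div_cancel₀ _ hpos.ne']
    refine Finset.sum_congr rfl fun B hB => ?_
    unfold xv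
    rw [cl_cl_union hB]
  have hM : (M0 (cl F T A) j : ℝ) = ((cl F T A).card : ℝ) * xv F T j A := by
    unfold xv
    rw [mul_div_cancel₀ _ hpos.ne']
  rw [hS, hS, hM]
  ring

end U5aux

open U5aux

theorem PT_nonneg (F : Finset (Finset α)) (T Y : Finset α) : 0 ≤ PT F T Y := by
  unfold PT
  positivity

theorem ent_PT (F : Finset (Finset α)) (hF : UCl F) (hne : F.Nonempty) (T : Finset α)
    (l : List α) (hl : l.Nodup) (hd : ∀ j ∈ l, j ∉ T) :
    chainSum (G2 F T) T l + (HH F (T ∪ l.toFinset) + (F.card : ℝ) * log F.card) ≤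
      (F.card : ℝ) * ∑ Y ∈ F, negMulLog (PT F T Y) := by
  have hN : (0 : ℝ) < (F.card : ℝ) := by exact_mod_cast Finset.card_pos.mpr hne
  -- the right-hand side
  have hR : (F.card : ℝ) * ∑ Y ∈ F, negMulLog (PT F T Y) =
      ∑ A ∈ F, ent (cl F T A) (conv (cl F T A) (cl F T A)) / ((cl F T A).card : ℝ) ^ 2 +
        (F.card : ℝ) * log F.card + HH F T := by
    rw [← sum_class F T (fun Y => negMulLog (PT F T Y))]
    have h1 : ∀ A ∈ F, (∑ B ∈ cl F T A, negMulLog (PT F T B)) / ((cl F T A).card : ℝ) =
        (ent (cl F T A) (conv (cl F T A) (cl F T A)) / ((cl F T A).card : ℝ) ^ 2 +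
          log (F.card : ℝ) - log ((cl F T A).card : ℝ)) / (F.card : ℝ) := by
      intro A hA
      have hpos : (0 : ℝ) < ((cl F T A).card : ℝ) := by exact_mod_cast cl_card_pos hA
      rw [← sum_negMulLog (cl F T A) (cl_union hF) hN hpos]
      congr 1
      refine Finset.sum_congr rfl fun B hB => ?_
      rw [PT_eq (mem_cl.mp hB).1, cl_eq hB]
    rw [Finset.sum_congr rfl h1, ← Finset.sum_div, mul_div_cancel₀ _ hN.ne']
    unfold HH
    rw [Finset.sum_sub_distrib, Finset.sum_add_distrib, Finset.sum_const, nsmul_eq_mul,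
      Finset.sum_neg_distrib]
    ring
  -- the chain inequality in each class
  have hC : ∀ A ∈ F, chainSum (fun S j => 2 * xv F T j A * avT hb F T S j A -
      (avT nu F T S j A) ^ 2) T l ≤
      ent (cl F T A) (conv (cl F T A) (cl F T A)) / ((cl F T A).card : ℝ) ^ 2 := by
    intro A hA
    have hpos : (0 : ℝ) < ((cl F T A).card : ℝ) := by exact_mod_cast cl_card_pos hA
    have h1 := Stub.chain_ineq (cl F T A) (cl F T A) l hl (cl_union hF)
    rw [chainSum_congr (gain_eq hA) ∅ l, chainSum_mul,
      chainSum_union (fun S j => 2 * xv F T j A * avT hb F T S j A -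
        (avT nu F T S j A) ^ 2) T ∅ l, Finset.union_empty] at h1
    rw [le_div_iff₀ (by positivity), mul_comm]
    exact h1
  have hsum := Finset.sum_le_sum hC
  rw [← chainSum_sum] at hsum
  have hG : chainSum (fun S j => ∑ A ∈ F, (2 * xv F T j A * avT hb F T S j A -
      (avT nu F T S j A) ^ 2)) T l = chainSum (G2 F T) T l + chainSum (Sg hb F) T l := by
    rw [← chainSum_add]
    apply chainSum_congr
    intro S j
    unfold G2
    ring
  rw [hG, Stub.chainSum_hb] at hsum
  rw [hR]
  linarith

end Pool.Agent.H286R2.UC
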